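import Mathlib
import Pool.Agent.Q278.KT.Fin
import Pool.Agent.Q278.KS.Ev

/-!
# Primes between almost all consecutive odd squares

From the bound for the number of poor intervals of length `x ^ (1/2)` (`Pool.Agent.Q278.KT.mainp_half`).
-/

set_option autoImplicit false

namespace Pool.Agent.H40E9.OS

open Finset Filter Topology
open Pool.Agent.Q240.KS

/-- the primes strictly between `(2 k - 1) ^ 2` and `(2 k + 1) ^ 2` -/
def P (k : ℕ) : Finset ℕ := (Ioc ((2 * k - 1) ^ 2) ((2 * k - 1) ^ 2 + (8 * k - 1))).filter Nat.Prime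

theorem cast_sq {k : ℕ} (hk : 1 ≤ k) : (((2 * k - 1) ^ 2 : ℕ) : ℝ) = (2 * (k : ℝ) - 1) ^ 2 := by
  push_cast [Nat.cast_sub (show 1 ≤ 2 * k by omega)]
  ring

/-- facts on one `k` -/
theorem one_k {k : ℕ} (hk : 1 ≤ k) {Y : ℝ} (hY : 4 ≤ Y) (h1 : |Real.log ((2 * (k : ℝ) - 1) ^ 2) - Y| ≤ 1 / 4) :
    3 ≤ k ∧ Real.exp (Y / 2) < 8 * k ∧ (k : ℝ) / (5 * Real.log k) ≤ Real.exp (Y / 2) / Y := by
  have hk1 : (1 : ℝ) ≤ k := by exact_mod_cast hk
  have hz : (1 : ℝ) ≤ 2 * k - 1 := by linarith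
  have hz0 : (0 : ℝ) < 2 * k - 1 := by linarith
  have hlog : Real.log ((2 * (k : ℝ) - 1) ^ 2) = 2 * Real.log (2 * (k : ℝ) - 1) := by
    rw [Real.log_pow]
    norm_num
  rw [hlog] at h1
  rw [abs_le] at h1
  obtain ⟨h2, h3⟩ := h1
  have hlz : Real.log (2 * (k : ℝ) - 1) ≤ 2 * k - 1 - 1 := Real.log_le_sub_one_of_pos hz0
  have hk3 : 3 ≤ k := by
    by_contra hcon
    have h4 : (k : ℝ) ≤ 2 := by
      have : k ≤ 2 := by omega
      exact_mod_cast this
    have h5 : Real.log (2 * (k : ℝ) - 1) ≤ Real.log 3 := Real.log_le_log hz0 (by linarith)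
    have h6 : Real.log 3 < 1.2 := by
      rw [Real.log_lt_iff_lt_exp (by norm_num)]
      have h7 : Real.exp 1 * (1 + 0.2) ≤ Real.exp 1.2 := by
        have h8 : Real.exp 1.2 = Real.exp 1 * Real.exp 0.2 := by
          rw [← Real.exp_add]
          norm_num
        rw [h8]
        have h9 := Real.add_one_le_exp (0.2 : ℝ)
        nlinarith [Real.exp_pos 1]
      have h8 := Real.exp_one_gt_d9
      nlinarith
    linarith
  have hkr : (3 : ℝ) ≤ k := by exact_mod_cast hk3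
  have hexpz : Real.exp (Real.log (2 * (k : ℝ) - 1)) = 2 * k - 1 := Real.exp_log hz0
  refine ⟨hk3, ?_, ?_⟩
  · have h4 : Real.exp (Y / 2) ≤ Real.exp (Real.log (2 * (k : ℝ) - 1) + 1 / 8) := Real.exp_le_exp.2 (by linarith)
    rw [Real.exp_add, hexpz] at h4
    have h5 : Real.exp (1 / 8 : ℝ) ≤ 3 := by
      have h6 := Real.exp_one_lt_d9
      have h7 : Real.exp (1 / 8 : ℝ) ≤ Real.exp 1 := Real.exp_le_exp.2 (by norm_num)
      linarith
    have h6 : (2 * (k : ℝ) - 1) * Real.exp (1 / 8) ≤ (2 * k - 1) * 3 := mul_le_mul_of_nonneg_left h5 hz0.le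
    linarith
  · have h4 : Real.exp (Real.log (2 * (k : ℝ) - 1) - 1 / 8) ≤ Real.exp (Y / 2) := Real.exp_le_exp.2 (by linarith)
    have h5 : (1 : ℝ) - 1 / 8 ≤ Real.exp (-(1 / 8)) := by
      have := Real.add_one_le_exp (-(1 / 8) : ℝ)
      linarith
    rw [sub_eq_add_neg, Real.exp_add, hexpz] at h4
    have h6 : (k : ℝ) * (7 / 8) ≤ Real.exp (Y / 2) := by
      refine le_trans ?_ h4
      have h7 : (k : ℝ) ≤ 2 * k - 1 := by linarith
      nlinarith
    have hl1 : 1 ≤ Real.log (k : ℝ) := by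
      rw [Real.le_log_iff_exp_le (by linarith)]
      have := Real.exp_one_lt_d9
      linarith
    have hY4 : Y ≤ 4 * Real.log k := by
      have h7 : Real.log (2 * (k : ℝ) - 1) ≤ Real.log 2 + Real.log k := by
        rw [← Real.log_mul (by norm_num) (by linarith)]
        exact Real.log_le_log hz0 (by linarith)
      have h8 := Real.log_two_lt_d9
      linarith
    rw [div_le_div_iff₀ (by linarith) (by linarith)]
    have h7 : (k : ℝ) * Y ≤ k * (4 * Real.log k) := mul_le_mul_of_nonneg_left hY4 (by linarith)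
    have h8 : (k : ℝ) * (7 / 8) * (5 * Real.log k) ≤ Real.exp (Y / 2) * (5 * Real.log k) :=
      mul_le_mul_of_nonneg_right h6 (by linarith)
    have h9 : 0 ≤ (k : ℝ) * Real.log k := by nlinarith
    nlinarith

/-- the index of the block of `k` -/
noncomputable def ix (k : ℕ) : ℕ := ⌊2 * Real.log ((2 * (k : ℝ) - 1) ^ 2) + 1 / 2⌋₊

theorem ix_spec {k : ℕ} (hk : 1 ≤ k) : |Real.log ((2 * (k : ℝ) - 1) ^ 2) - (ix k : ℝ) / 2| ≤ 1 / 4 := by
  have hk1 : (1 : ℝ) ≤ k := by exact_mod_cast hk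
  have h1 : (1 : ℝ) ≤ (2 * (k : ℝ) - 1) ^ 2 := one_le_pow₀ (by linarith)
  have h2 := Real.log_nonneg h1
  have h3 : (ix k : ℝ) ≤ 2 * Real.log ((2 * (k : ℝ) - 1) ^ 2) + 1 / 2 := Nat.floor_le (by linarith)
  have h4 : 2 * Real.log ((2 * (k : ℝ) - 1) ^ 2) + 1 / 2 < (ix k : ℝ) + 1 := Nat.lt_floor_add_one _
  rw [abs_le]
  constructor <;> linarith

/-- the bad `k` of one block -/
theorem block {c η Y₀ : ℝ} (hc : 0 < c) (hη : 0 < η)
    (hmain : ∀ Y : ℝ, Y₀ ≤ Y → ∀ h : ℝ, Real.exp ((1 - 1 / 2 - η) * Y) ≤ h → h ≤ Real.exp (0.9 * Y) → ∀ U : Finset ℝ,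
      (∀ y ∈ U, 0 < y ∧ |Real.log y - Y| ≤ 2 / 5 ∧ (pic y h : ℝ) < c * h / Y) →
      (∀ y ∈ U, ∀ y' ∈ U, y ≠ y' → h ≤ |y - y'|) → (U.card : ℝ) ≤ Real.exp ((0.306 - η) * Y))
    (F : Finset ℕ) (j : ℕ) (hF : ∀ k ∈ F, 1 ≤ k ∧ ix k = j ∧ ((P k).card : ℝ) < c / 5 * k / Real.log k)
    (hj1 : Y₀ ≤ (j : ℝ) / 2) (hj2 : 4 ≤ (j : ℝ) / 2) : (F.card : ℝ) ≤ Real.exp (0.306 * ((j : ℝ) / 2)) := by
  classical
  obtain ⟨Y, hY⟩ : ∃ Y : ℝ, Y = (j : ℝ) / 2 := ⟨_, rfl⟩
  rw [← hY] at hj1 hj2 ⊢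
  have hspec : ∀ k ∈ F, |Real.log ((2 * (k : ℝ) - 1) ^ 2) - Y| ≤ 1 / 4 := by
    intro k hk
    obtain ⟨h1, h2, -⟩ := hF k hk
    have h3 := ix_spec h1
    rwa [h2, ← hY] at h3
  have hinj : Set.InjOn (fun k : ℕ => (2 * (k : ℝ) - 1) ^ 2) (F : Set ℕ) := by
    intro k hk k' hk' hkk
    have h1 : (1 : ℝ) ≤ k := by exact_mod_cast (hF k (Finset.mem_coe.1 hk)).1
    have h2 : (1 : ℝ) ≤ k' := by exact_mod_cast (hF k' (Finset.mem_coe.1 hk')).1
    have h3 : (2 * (k : ℝ) - 1) ^ 2 = (2 * (k' : ℝ) - 1) ^ 2 := hkk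
    have h4 : 2 * (k : ℝ) - 1 = 2 * (k' : ℝ) - 1 := by
      rwa [sq_eq_sq₀ (by linarith) (by linarith)] at h3
    have h5 : (k : ℝ) = k' := by linarith
    exact_mod_cast h5
  have key : ∀ a ∈ F, ∀ b : ℕ, a < b → Real.exp (Y / 2) ≤ (2 * (b : ℝ) - 1) ^ 2 - (2 * (a : ℝ) - 1) ^ 2 := by
    intro a ha b hab
    obtain ⟨h1, -, -⟩ := hF a ha
    obtain ⟨-, h3, -⟩ := one_k h1 hj2 (hspec a ha)
    have h4 : (1 : ℝ) ≤ a := by exact_mod_cast h1
    have h5 : (a : ℝ) + 1 ≤ b := by exact_mod_cast hab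
    nlinarith
  have h := hmain Y hj1 (Real.exp (Y / 2)) (Real.exp_le_exp.2 (by nlinarith)) (Real.exp_le_exp.2 (by linarith))
    (F.image (fun k : ℕ => (2 * (k : ℝ) - 1) ^ 2)) (by
      intro y hy
      obtain ⟨k, hk, rfl⟩ := mem_image.1 hy
      obtain ⟨h1, h2, h3⟩ := hF k hk
      have hs := hspec k hk
      obtain ⟨h4, h5, h6⟩ := one_k h1 hj2 hs
      have hk1 : (1 : ℝ) ≤ k := by exact_mod_cast h1
      refine ⟨by nlinarith, hs.trans (by norm_num), ?_⟩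
      have h7 : pic ((2 * (k : ℝ) - 1) ^ 2) (Real.exp (Y / 2)) ≤ (P k).card := by
        unfold pic P
        apply card_le_card
        apply filter_subset_filter
        rw [← cast_sq h1, Nat.floor_natCast]
        apply Ioc_subset_Ioc_right
        have h8 : ⌊(((2 * k - 1) ^ 2 : ℕ) : ℝ) + Real.exp (Y / 2)⌋₊ < (2 * k - 1) ^ 2 + 8 * k := by
          rw [Nat.floor_lt (by positivity)]
          push_cast
          push_cast at h5
          linarith
        omega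
      have h8 : ((pic ((2 * (k : ℝ) - 1) ^ 2) (Real.exp (Y / 2)) : ℕ) : ℝ) ≤ (P k).card := by exact_mod_cast h7
      have h9 : c / 5 * k / Real.log k = c * ((k : ℝ) / (5 * Real.log k)) := by
        have h10 : Real.log (k : ℝ) ≠ 0 := by
          have : (1 : ℝ) < k := by
            have : (3 : ℝ) ≤ k := by exact_mod_cast h4
            linarith
          exact (Real.log_pos this).ne'
        field_simp
      rw [h9] at h3
      have h10 : c * ((k : ℝ) / (5 * Real.log k)) ≤ c * (Real.exp (Y / 2) / Y) := mul_le_mul_of_nonneg_left h6 hc.le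
      rw [mul_div_assoc]
      linarith) (by
      intro y hy y' hy' hne
      obtain ⟨k, hk, rfl⟩ := mem_image.1 hy
      obtain ⟨k', hk', rfl⟩ := mem_image.1 hy'
      have hkk : k ≠ k' := by
        rintro rfl
        exact hne rfl
      rcases Nat.lt_or_gt_of_ne hkk with h1 | h1
      · rw [abs_sub_comm]
        exact (key k hk k' h1).trans (le_abs_self _)
      · exact (key k' hk' k h1).trans (le_abs_self _))
  rw [card_image_of_injOn hinj] at h
  refine h.trans (Real.exp_le_exp.2 ?_)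
  nlinarith

/-- **few poor intervals between odd squares** -/
theorem few : ∃ c : ℝ, 0 < c ∧ ∃ K₀ : ℕ, ∀ K : ℕ, K₀ ≤ K →
    (((Icc 1 K).filter (fun k : ℕ => ((P k).card : ℝ) < c * k / Real.log k)).card : ℝ) ≤ (K : ℝ) ^ (0.613 : ℝ) := by
  classical
  obtain ⟨c, η, Y₀, hc, hη, hmain⟩ := Pool.Agent.Q278.KT.mainp_half
  obtain ⟨Y₁, hY₁⟩ : ∃ Y₁ : ℝ, Y₁ = max Y₀ 4 := ⟨_, rfl⟩
  have hY₁0 : Y₀ ≤ Y₁ := by rw [hY₁]; exact le_max_left _ _
  have hY₁4 : 4 ≤ Y₁ := by rw [hY₁]; exact le_max_right _ _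
  obtain ⟨E, hE⟩ : ∃ E : ℝ, E = Real.exp Y₁ := ⟨_, rfl⟩
  have hE0 : 0 < E := by rw [hE]; exact Real.exp_pos _
  have hK := tendsto_natCast_atTop_atTop (R := ℝ)
  have hlogK : Tendsto (fun K : ℕ => Real.log (K : ℝ)) atTop atTop := Real.tendsto_log_atTop.comp hK
  have hev := hlogK.eventually (Pool.Agent.Q278.KS.ev_poly (9 * (E + 2)) 1 (show (0 : ℝ) < 0.001 by norm_num))
  obtain ⟨K₀, hK₀⟩ := eventually_atTop.1 ((hev.and (hlogK.eventually_ge_atTop 1)).and (eventually_ge_atTop 3))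
  refine ⟨c / 5, by positivity, K₀, fun K hKK => ?_⟩
  obtain ⟨⟨e1, e2⟩, e3⟩ := hK₀ K hKK
  obtain ⟨L, hL⟩ : ∃ L : ℝ, L = Real.log (K : ℝ) := ⟨_, rfl⟩
  rw [← hL] at e1 e2
  have hK3 : (3 : ℝ) ≤ K := by exact_mod_cast e3
  have hexpL : Real.exp L = K := by rw [hL, Real.exp_log (by linarith)]
  obtain ⟨bad, hbad⟩ : ∃ bad : Finset ℕ, bad = (Icc 1 K).filter (fun k : ℕ => ((P k).card : ℝ) < c / 5 * k / Real.log k) :=
    ⟨_, rfl⟩
  rw [← hbad]
  -- the indices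
  have hix : ∀ k ∈ bad, ix k ∈ range (⌊4 * L + 4⌋₊ + 1) := by
    intro k hk
    rw [hbad, mem_filter, mem_Icc] at hk
    obtain ⟨⟨h1, h2⟩, -⟩ := hk
    rw [mem_range, Nat.lt_add_one_iff]
    apply Nat.floor_le_floor
    have h3 : (1 : ℝ) ≤ k := by exact_mod_cast h1
    have h4 : (k : ℝ) ≤ K := by exact_mod_cast h2
    have h5 : Real.log ((2 * (k : ℝ) - 1) ^ 2) ≤ 2 * (Real.log 2 + L) := by
      rw [Real.log_pow, hL, ← Real.log_mul (by norm_num) (by linarith)]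
      push_cast
      have := Real.log_le_log (show (0 : ℝ) < 2 * k - 1 by linarith) (show 2 * (k : ℝ) - 1 ≤ 2 * K by linarith)
      linarith
    have h6 := Real.log_two_lt_d9
    linarith
  have hcard : bad.card = ∑ j ∈ range (⌊4 * L + 4⌋₊ + 1), (bad.filter (fun k => ix k = j)).card :=
    card_eq_sum_card_fiberwise hix
  have hL0 : 0 ≤ 4 * L + 4 := by linarith
  have hfl : ((⌊4 * L + 4⌋₊ : ℕ) : ℝ) ≤ 4 * L + 4 := Nat.floor_le hL0
  have hfib : ∀ j ∈ range (⌊4 * L + 4⌋₊ + 1), ((bad.filter (fun k => ix k = j)).card : ℝ) ≤ (E + 2) * Real.exp (0.612 * L) := by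
    intro j hj
    rw [mem_range, Nat.lt_add_one_iff] at hj
    have hjr : (j : ℝ) ≤ 4 * L + 4 := le_trans (by exact_mod_cast hj) hfl
    have hone : 1 ≤ Real.exp (0.612 * L) := by
      rw [← Real.exp_zero]
      exact Real.exp_le_exp.2 (by linarith)
    rcases lt_or_ge ((j : ℝ) / 2) Y₁ with h1 | h1
    · have h2 : (bad.filter (fun k => ix k = j)) ⊆ Icc 1 ⌊E⌋₊ := by
        intro k hk
        rw [mem_filter, hbad, mem_filter, mem_Icc] at hk
        obtain ⟨⟨⟨h3, -⟩, -⟩, h4⟩ := hk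
        rw [mem_Icc]
        refine ⟨h3, ?_⟩
        apply Nat.le_floor
        have h5 := ix_spec h3
        rw [h4, abs_le] at h5
        have h6 : (1 : ℝ) ≤ k := by exact_mod_cast h3
        have h7 : Real.log ((2 * (k : ℝ) - 1) ^ 2) = 2 * Real.log (2 * (k : ℝ) - 1) := by
          rw [Real.log_pow]
          norm_num
        have h8 : Real.log (2 * (k : ℝ) - 1) ≤ Y₁ := by linarith
        have h9 : 2 * (k : ℝ) - 1 ≤ E := by
          rw [hE, ← Real.log_le_iff_le_exp (by linarith)]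
          exact h8
        linarith
      have h3 : ((bad.filter (fun k => ix k = j)).card : ℝ) ≤ E := by
        have h4 := card_le_card h2
        rw [Nat.card_Icc, Nat.add_sub_cancel] at h4
        exact le_trans (by exact_mod_cast h4) (Nat.floor_le hE0.le)
      nlinarith
    · have h2 := block hc hη hmain (bad.filter (fun k => ix k = j)) j (by
        intro k hk
        rw [mem_filter, hbad, mem_filter, mem_Icc] at hk
        exact ⟨hk.1.1.1, hk.2, hk.1.2⟩) (hY₁0.trans h1) (hY₁4.trans h1)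
      refine h2.trans ?_
      have h3 : Real.exp (0.306 * ((j : ℝ) / 2)) ≤ Real.exp (0.612 * L) * Real.exp 0.612 := by
        rw [← Real.exp_add]
        apply Real.exp_le_exp.2
        linarith
      have h4 : Real.exp 0.612 ≤ 2 := by
        have h5 : Real.exp (0.612 : ℝ) ≤ Real.exp (Real.log 2) := by
          apply Real.exp_le_exp.2
          have := Real.log_two_gt_d9
          linarith
        rwa [Real.exp_log (by norm_num)] at h5
      have h5 := Real.exp_pos (0.612 * L)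
      nlinarith
  have hsum : (bad.card : ℝ) ≤ (⌊4 * L + 4⌋₊ + 1 : ℕ) * ((E + 2) * Real.exp (0.612 * L)) := by
    rw [hcard]
    push_cast
    calc ∑ j ∈ range (⌊4 * L + 4⌋₊ + 1), ((bad.filter (fun k => ix k = j)).card : ℝ)
        ≤ ∑ _j ∈ range (⌊4 * L + 4⌋₊ + 1), (E + 2) * Real.exp (0.612 * L) := sum_le_sum hfib
      _ = _ := by rw [sum_const, card_range, nsmul_eq_mul]; push_cast; ring
  refine hsum.trans ?_
  have h6 : (((⌊4 * L + 4⌋₊ + 1 : ℕ) : ℝ)) ≤ 9 * L := by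
    push_cast
    linarith
  have h7 : (K : ℝ) ^ (0.613 : ℝ) = Real.exp (0.001 * L) * Real.exp (0.612 * L) := by
    rw [Real.rpow_def_of_pos (by linarith), ← hL, ← Real.exp_add]
    congr 1
    ring
  rw [h7]
  have h8 := Real.exp_pos (0.612 * L)
  have h9 : 9 * (E + 2) * L ≤ Real.exp (0.001 * L) := by
    have := e1
    rwa [pow_one] at this
  calc (((⌊4 * L + 4⌋₊ + 1 : ℕ) : ℝ)) * ((E + 2) * Real.exp (0.612 * L))
      ≤ 9 * L * ((E + 2) * Real.exp (0.612 * L)) := mul_le_mul_of_nonneg_right h6 (by positivity)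
    _ = (9 * (E + 2) * L) * Real.exp (0.612 * L) := by ring
    _ ≤ _ := mul_le_mul_of_nonneg_right h9 h8.le

end Pool.Agent.H40E9.OS
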