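import Mathlib
import Pool.Agent.X58.IV.Prm
import Pool.Agent.H40E9.OS.Few

/-!
# Narrow patterns in the primes between odd squares

Szemerédi's theorem relative to sifted sets in short intervals (`Pool.Agent.X58.IV.primes_ap`) applied to the rich intervals
between consecutive odd squares.
-/

set_option autoImplicit false

namespace Pool.Agent.H40E9.OS

open Finset Filter Topology
open Pool.Agent.X58.IV (HasAP primes_ap)

/-- dense sets of primes between odd squares contain narrow copies of every pattern -/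
theorem dense (r : ℕ) (h : Fin r → ℤ) (c ε : ℝ) (hc : 0 < c) (hε : 0 < ε) : ∃ B K₀ : ℕ, ∀ k : ℕ, K₀ ≤ k →
    c * k / Real.log k ≤ (P k).card → ∀ U ⊆ P k, ε * (P k).card ≤ U.card →
    ∃ a : ℤ, ∃ D : ℕ, 1 ≤ D ∧ (D : ℝ) ≤ Real.log k ^ B ∧ ∀ i, ∃ q ∈ U, (q : ℤ) = a + h i * D := by
  obtain ⟨s, hs⟩ : ∃ s : ℕ, ∀ i, (h i).natAbs ≤ s :=
    ⟨∑ i, (h i).natAbs, fun i => single_le_sum (f := fun i => (h i).natAbs) (fun _ _ => Nat.zero_le _) (mem_univ i)⟩
  obtain ⟨B, X₀, hB⟩ := primes_ap (2 * s + 1) (ε * c / 8) (by positivity)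
  have hk := tendsto_natCast_atTop_atTop (R := ℝ)
  have hlogk : Tendsto (fun k : ℕ => Real.log (k : ℝ)) atTop atTop := Real.tendsto_log_atTop.comp hk
  obtain ⟨K₀, hK₀⟩ := eventually_atTop.1 ((hlogk.eventually_ge_atTop 3).and (eventually_ge_atTop (X₀ + 3)))
  refine ⟨2 * B, K₀, fun k hkk hrich U hU hUc => ?_⟩
  obtain ⟨e1, e2⟩ := hK₀ k hkk
  have hk1 : (3 : ℝ) ≤ k := by exact_mod_cast (by omega : 3 ≤ k)
  have hX1 : X₀ ≤ 8 * k - 1 := by omega
  have hXA : 8 * k - 1 ≤ (2 * k - 1) ^ 2 := by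
    obtain ⟨m, rfl⟩ : ∃ m, k = m + 3 := ⟨k - 3, by omega⟩
    have h1 : 2 * (m + 3) - 1 = 2 * m + 5 := by omega
    rw [h1]
    have h2 : 8 * (m + 3) - 1 = 8 * m + 23 := by omega
    rw [h2]
    nlinarith
  have hXk : ((8 * k - 1 : ℕ) : ℝ) ≤ 8 * k := by
    have : ((8 * k - 1 : ℕ) : ℝ) ≤ ((8 * k : ℕ) : ℝ) := by exact_mod_cast Nat.sub_le _ _
    refine this.trans (le_of_eq ?_)
    push_cast
    ring
  have hkX : (k : ℝ) ≤ ((8 * k - 1 : ℕ) : ℝ) := by exact_mod_cast (by omega : k ≤ 8 * k - 1)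
  have hlog1 : Real.log k ≤ Real.log ((8 * k - 1 : ℕ) : ℝ) := Real.log_le_log (by linarith) hkX
  have hlog2 : Real.log ((8 * k - 1 : ℕ) : ℝ) ≤ Real.log k ^ 2 := by
    have h1 : Real.log ((8 * k - 1 : ℕ) : ℝ) ≤ Real.log (8 * k) := Real.log_le_log (by linarith) hXk
    have h2 : Real.log (8 * (k : ℝ)) = Real.log 8 + Real.log k := Real.log_mul (by norm_num) (by linarith)
    have h3 : Real.log 8 = 3 * Real.log 2 := by
      rw [show (8 : ℝ) = 2 ^ 3 by norm_num, Real.log_pow]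
      norm_num
    have h4 := Real.log_two_lt_d9
    nlinarith
  have hneed : ε * c / 8 * ((8 * k - 1 : ℕ) : ℝ) / Real.log ((8 * k - 1 : ℕ) : ℝ) ≤ U.card := by
    have h1 : ε * c / 8 * ((8 * k - 1 : ℕ) : ℝ) / Real.log ((8 * k - 1 : ℕ) : ℝ) ≤ ε * c / 8 * (8 * k) / Real.log k := by
      apply div_le_div₀
      · positivity
      · exact mul_le_mul_of_nonneg_left hXk (by positivity)
      · linarith
      · exact hlog1
    have h2 : ε * c / 8 * (8 * k) / Real.log k = ε * (c * k / Real.log k) := by ring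
    rw [h2] at h1
    exact h1.trans ((mul_le_mul_of_nonneg_left hrich hε.le).trans hUc)
  obtain ⟨a, d, hd1, hd2, hUa⟩ := hB (8 * k - 1) ((2 * k - 1) ^ 2) hX1 hXA U hU hneed
  refine ⟨(a : ℤ) + s * d, d, hd1, hd2.trans ?_, fun i => ?_⟩
  · rw [pow_mul]
    exact pow_le_pow_left₀ (by linarith) hlog2 B
  · have h1 := hs i
    obtain ⟨j, hj⟩ : ∃ j : ℕ, (j : ℤ) = s + h i := ⟨((s : ℤ) + h i).toNat, Int.toNat_of_nonneg (by omega)⟩
    refine ⟨a + j * d, hUa j (by omega), ?_⟩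
    push_cast
    rw [hj]
    ring

/-- `p` starts a copy of the pattern between the odd squares -/
def Starts {r : ℕ} (h : Fin r → ℤ) (D : ℕ) (k p : ℕ) : Prop := ∀ i, ∃ q ∈ P k, (q : ℤ) = p + h i * D

open Classical in
/-- almost all primes start narrow copies -/
theorem most (r : ℕ) (h : Fin r → ℤ) (c ε : ℝ) (hc : 0 < c) (hε : 0 < ε) : ∃ B K₀ : ℕ, ∀ k : ℕ, K₀ ≤ k →
    c * k / Real.log k ≤ (P k).card → (1 - ε) * (P k).card ≤
      ((P k).filter (fun p => ∃ D : ℕ, 1 ≤ D ∧ (D : ℝ) ≤ Real.log k ^ B ∧ Starts h D k p)).card := by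
  obtain ⟨B, K₀, hB⟩ := dense (r + 1) (Fin.cons 0 h) c ε hc hε
  refine ⟨B, K₀, fun k hk hrich => ?_⟩
  have h1 := card_filter_add_card_filter_not (s := P k)
    (fun p => ∃ D : ℕ, 1 ≤ D ∧ (D : ℝ) ≤ Real.log k ^ B ∧ Starts h D k p)
  have h2 : (((P k).filter (fun p => ∃ D : ℕ, 1 ≤ D ∧ (D : ℝ) ≤ Real.log k ^ B ∧ Starts h D k p)).card : ℝ) +
    ((P k).filter (fun p => ¬ ∃ D : ℕ, 1 ≤ D ∧ (D : ℝ) ≤ Real.log k ^ B ∧ Starts h D k p)).card = (P k).card := by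
    exact_mod_cast h1
  by_contra hcon
  rw [not_le] at hcon
  obtain ⟨a, D, hD1, hD2, hD3⟩ := hB k hk hrich
    ((P k).filter (fun p => ¬ ∃ D : ℕ, 1 ≤ D ∧ (D : ℝ) ≤ Real.log k ^ B ∧ Starts h D k p)) (filter_subset _ _) (by linarith)
  obtain ⟨p, hp, hpa⟩ := hD3 0
  rw [mem_filter] at hp
  apply hp.2
  refine ⟨D, hD1, hD2, fun i => ?_⟩
  obtain ⟨q, hq, hqa⟩ := hD3 i.succ
  refine ⟨q, (mem_filter.1 hq).1, ?_⟩
  rw [Fin.cons_zero, zero_mul, add_zero] at hpa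
  rw [Fin.cons_succ] at hqa
  rw [hqa, hpa]

open Classical in
/-- one dilation for many primes -/
theorem oneD (r : ℕ) (h : Fin r → ℤ) (c : ℝ) (hc : 0 < c) : ∃ B K₀ : ℕ, ∀ k : ℕ, K₀ ≤ k →
    c * k / Real.log k ≤ (P k).card → ∃ D : ℕ, 1 ≤ D ∧ (D : ℝ) ≤ Real.log k ^ B ∧
      (k : ℝ) / Real.log k ^ B ≤ ((P k).filter (fun p => Starts h D k p)).card := by
  obtain ⟨B, K₀, hB⟩ := most r h c (1 / 2) hc (by norm_num)
  have hk := tendsto_natCast_atTop_atTop (R := ℝ)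
  have hlogk : Tendsto (fun k : ℕ => Real.log (k : ℝ)) atTop atTop := Real.tendsto_log_atTop.comp hk
  obtain ⟨K₁, hK₁⟩ := eventually_atTop.1 ((hlogk.eventually_ge_atTop (max 1 (3 / c))).and (eventually_ge_atTop 3))
  refine ⟨B + 2, max K₀ K₁, fun k hkk hrich => ?_⟩
  obtain ⟨e1, e2⟩ := hK₁ k ((le_max_right _ _).trans hkk)
  have h1 := hB k ((le_max_left _ _).trans hkk) hrich
  obtain ⟨L, hL⟩ : ∃ L : ℝ, L = Real.log (k : ℝ) := ⟨_, rfl⟩
  rw [← hL] at e1 h1 hrich ⊢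
  have hL1 : 1 ≤ L := (le_max_left _ _).trans e1
  have hLc : 3 / c ≤ L := (le_max_right _ _).trans e1
  rw [div_le_iff₀ hc] at hLc
  have hk0 : (0 : ℝ) < k := by
    have : (3 : ℝ) ≤ k := by exact_mod_cast e2
    linarith
  by_contra hcon
  push Not at hcon
  obtain ⟨M, hM⟩ : ∃ M : ℕ, M = ⌊L ^ B⌋₊ := ⟨_, rfl⟩
  have hMle : (M : ℝ) ≤ L ^ B := by rw [hM]; exact Nat.floor_le (by positivity)
  have h2 : ((P k).filter (fun p => ∃ D : ℕ, 1 ≤ D ∧ (D : ℝ) ≤ L ^ B ∧ Starts h D k p)).card ≤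
      ∑ D ∈ Icc 1 M, ((P k).filter (fun p => Starts h D k p)).card := by
    refine le_trans (card_le_card ?_) card_biUnion_le
    intro p hp
    rw [mem_filter] at hp
    obtain ⟨hp1, D, hD1, hD2, hD3⟩ := hp
    rw [mem_biUnion]
    refine ⟨D, ?_, mem_filter.2 ⟨hp1, hD3⟩⟩
    rw [mem_Icc]
    refine ⟨hD1, ?_⟩
    rw [hM]
    exact Nat.le_floor hD2
  have h3 : ((∑ D ∈ Icc 1 M, ((P k).filter (fun p => Starts h D k p)).card : ℕ) : ℝ) ≤ M * (k / L ^ (B + 2)) := by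
    push_cast
    calc ∑ D ∈ Icc 1 M, (((P k).filter (fun p => Starts h D k p)).card : ℝ) ≤ ∑ _D ∈ Icc 1 M, (k : ℝ) / L ^ (B + 2) := by
          apply sum_le_sum
          intro D hD
          rw [mem_Icc] at hD
          apply (hcon D hD.1 ?_).le
          have h9 : (D : ℝ) ≤ M := by exact_mod_cast hD.2
          refine h9.trans (hMle.trans ?_)
          exact pow_le_pow_right₀ hL1 (by omega)
      _ = M * (k / L ^ (B + 2)) := by
          rw [sum_const, Nat.card_Icc, nsmul_eq_mul]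
          simp
  have h4 : (((P k).filter (fun p => ∃ D : ℕ, 1 ≤ D ∧ (D : ℝ) ≤ L ^ B ∧ Starts h D k p)).card : ℝ) ≤
      ((∑ D ∈ Icc 1 M, ((P k).filter (fun p => Starts h D k p)).card : ℕ) : ℝ) := by exact_mod_cast h2
  have h5 : (M : ℝ) * (k / L ^ (B + 2)) ≤ L ^ B * (k / L ^ (B + 2)) := mul_le_mul_of_nonneg_right hMle (by positivity)
  have h6 : L ^ B * ((k : ℝ) / L ^ (B + 2)) = k / L ^ 2 := by
    rw [pow_add]
    field_simp
  have h7 : (1 - 1 / 2) * (c * k / L) ≤ k / L ^ 2 := by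
    refine (mul_le_mul_of_nonneg_left hrich (by norm_num)).trans (h1.trans (h4.trans (h3.trans (h5.trans (le_of_eq h6)))))
  have h8 : (1 - 1 / 2) * (c * k / L) = (c * L / 2) * (k / L ^ 2) := by
    field_simp
    norm_num
  rw [h8] at h7
  have h9 : 0 < (k : ℝ) / L ^ 2 := by positivity
  have h10 : c * L / 2 ≤ 1 := by
    by_contra h11
    rw [not_le] at h11
    nlinarith
  linarith

end Pool.Agent.H40E9.OS
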